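import Pool.Agent.TH659.AQ.Shift
import Pool.Agent.TH659.AQ.Rohr

/-!
# π and the values `Γ(q + s_1), Γ(2q + s_2), …, Γ(nq + s_n)`, for almost all rational numbers `q`

For all but few rational numbers `q` of `[a, b]` these `n + 1` numbers satisfy no polynomial relation, not even an
approximate one, of given degree and polynomially bounded height. In particular no product of `r` of the `n` values
of the Gamma function is `α π^{r/2}` with `α²` algebraic of bounded degree and polynomially bounded height.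
-/

set_option autoImplicit false

namespace Pool.Agent.Results.MP_c2409d_nt.AlmostAllRationals

/-- The values `Γ((j + 1) q + s_j)`, `j = 0, …, n - 1`. -/
noncomputable def gammaValue {n : ℕ} (s : Fin n → ℚ) (q : ℚ) (j : Fin n) : ℝ :=
  Real.Gamma ((((j : ℕ) + 1 : ℕ) : ℝ) * q + s j)

/-- The `n + 1` numbers `π` and `Γ((j + 1) q + s_j)`. -/
noncomputable def values {n : ℕ} (s : Fin n → ℚ) (q : ℚ) (x : Option (Fin n)) : ℝ :=
  match x with
  | none => Real.pi
  | some j => gammaValue s q j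

/-- The rational numbers `q` in `[a, b]` with denominator at most `T` for which some nonzero polynomial in `n + 1`
variables with integer coefficients of absolute value at most `T ^ A`, of degree at most `d` in each variable, takes at
`π`, `Γ((j + 1) q + s_j)` a value of absolute value at most `T ^ (-B)`. -/
def Exceptional {n : ℕ} (s : Fin n → ℚ) (d : ℕ) (a b A B T : ℝ) : Set ℚ :=
  {q | a ≤ q ∧ q ≤ b ∧ (q.den : ℝ) ≤ T ∧
    ∃ P : MvPolynomial (Option (Fin n)) ℤ, P ≠ 0 ∧ (∀ x, P.degreeOf x ≤ d) ∧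
      (∀ m, |((P.coeff m : ℤ) : ℝ)| ≤ T ^ A) ∧ |MvPolynomial.aeval (values s q) P| ≤ T ^ (-B)}

/-- Let `a < b`, `(j + 1) a + s_j > 0`, let `d` and `A ≥ 0` be given and let `β > 2 - 2 / ((d + 1)^(n + 1) + 1)`.
There are `B` and `C` such that for all `T ≥ 1` the number of exceptional `q` is at most `C T^β` (whereas the number of
all rational numbers in `[a, b]` with denominator at most `T` is about `T ^ 2`). If `q` in `[a, b]` with denominator at
most `T` is not exceptional, `r ≥ 1` and `2 r D ≤ d`, then for the product `x` of any `r` values `Γ((j + 1) q + s_j)`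
(repetitions allowed) the number `(x / π^{r/2})²` is not a root of a nonzero integer polynomial of degree at most `D`
with coefficients at most `T ^ A`. -/
theorem result (n d : ℕ) (s : Fin n → ℚ) (a b : ℝ) (hab : a < b)
    (ha : ∀ j : Fin n, 0 < (((j : ℕ) + 1 : ℕ) : ℝ) * a + s j) (A β : ℝ) (hA : 0 ≤ A)
    (hβ : 2 - 2 / (((d : ℝ) + 1) ^ (n + 1) + 1) < β) :
    (∃ B C : ℝ, ∀ T : ℝ, 1 ≤ T → (Exceptional s d a b A B T).Finite ∧
      ((Exceptional s d a b A B T).ncard : ℝ) ≤ C * T ^ β) ∧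
    ∀ (B T : ℝ) (q : ℚ), 1 ≤ T → a ≤ q → q ≤ b → (q.den : ℝ) ≤ T → q ∉ Exceptional s d a b A B T →
      ∀ (r D : ℕ) (j : Fin r → Fin n) (Q : Polynomial ℤ), 1 ≤ r → 2 * r * D ≤ d → Q ≠ 0 → Q.natDegree ≤ D →
        (∀ i, |((Q.coeff i : ℤ) : ℝ)| ≤ T ^ A) →
        Polynomial.aeval ((∏ l, gammaValue s q (j l)) ^ 2 / Real.pi ^ r) Q ≠ 0 := by
  have hv : ∀ q : ℚ, values s q = TH659.AQ.vals (TH659.AQ.hf fun j => (s j : ℝ)) (q : ℝ) := by
    intro q
    funext x
    cases x <;> rfl
  have hE : ∀ B T, Exceptional s d a b A B T = TH659.AQ.Ex (TH659.AQ.hf fun j => (s j : ℝ)) d a b A B T := by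
    intro B T
    ext q
    simp only [Exceptional, TH659.AQ.Ex, hv]
  constructor
  · obtain ⟨B, C, h⟩ := TH659.AQ.final n d (TH659.AQ.hf fun j => (s j : ℝ)) a b hab
      (fun j t ht => TH659.AQ.hf_an _ j (TH659.AQ.harg_pos _ ha j ht.1))
      (TH659.AQ.hf_ind _ d a b ha hab) A β hA hβ
    refine ⟨B, C, fun T hT => ?_⟩
    rw [hE]
    exact h T hT
  · intro B T q hT hq1 hq2 hq3 hnot r D j Q hr hd hQ hdeg hc
    rw [hE] at hnot
    exact TH659.AQ.alg_mult _ a b A B T hT q ⟨hq1, hq2, hq3⟩ hnot r D hr hd j Q hQ hdeg hc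

end Pool.Agent.Results.MP_c2409d_nt.AlmostAllRationals
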