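import Mathlib
import Pool.Agent.TH127.GA.Final

/-!
# Conjugate products of gamma values at rational points

Hypotheses on the periods of the abelian varieties of CM type, all of them theorems: Deligne's
theorem on Hodge classes (`P.Deligne`), the theorem of Wüstholz for two periods (`Wuestholz P`), and
the computation of the periods of the Fermat curves by beta values (`FermatPeriods P`).
-/

namespace Pool.Agent.Results.MP_c2409d_nt.ConjugateProducts

open Pool.Agent.W537.PC Pool.Agent.TH127.GA

theorem result (P : PeriodSystem) (hDeligne : P.Deligne) (hWuestholz : Wuestholz P)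
    (hFermat : FermatPeriods P) {r D : ℕ} (hD : 0 < D) (a : Fin r → ℚ)
    (hDa : ∀ i, ∃ k : ℤ, (D : ℚ) * a i = k) (ha : ∀ i, ∀ k : ℤ, a i ≠ k) :
    -- the space spanned by the excess functions of the algebraic conjugates contains no nonzero
    -- function with values in `{0, 1, -1}`
    (∀ f ∈ algebraicSpan D a, (∀ t, f t = 0 ∨ f t = 1 ∨ f t = -1) → f = 0) ∧
    -- and no nonzero subspace stable under the substitutions `t ↦ t m`
    (∀ V : Submodule ℚ ({t : ℕ // t.Coprime D} → ℚ), V ≤ algebraicSpan D a →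
      (∀ f ∈ V, ∀ (m : ℕ) (hm : m.Coprime D),
        (fun t : {t : ℕ // t.Coprime D} => f ⟨t.1 * m, Nat.Coprime.mul_left t.2 hm⟩) ∈ V) →
      V = ⊥) ∧
    -- if all conjugate products are algebraic multiples, then the identity of Rohrlich holds
    ((∀ m : ℕ, m.Coprime D → 2 * m ≤ D → AlgebraicMultiple (fun i => (m : ℚ) * a i)) →
      ∀ m : ℕ, m.Coprime D → ∑ i, Int.fract ((m : ℚ) * a i) = (r : ℚ) / 2) ∧
    -- the conjecture holds if the excess has the values `0`, `c`, `-c` only
    (∀ c : ℚ, (∀ m : ℕ, m.Coprime D →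
        ∑ i, Int.fract ((m : ℚ) * a i) - (r : ℚ) / 2 = 0 ∨
        ∑ i, Int.fract ((m : ℚ) * a i) - (r : ℚ) / 2 = c ∨
        ∑ i, Int.fract ((m : ℚ) * a i) - (r : ℚ) / 2 = -c) →
      AlgebraicMultiple a →
      ∀ m : ℕ, m.Coprime D → ∑ i, Int.fract ((m : ℚ) * a i) = (r : ℚ) / 2) := by
  have : NeZero D := ⟨hD.ne'⟩
  choose k hk using hDa
  have hk0 : ∀ i, ((k i : ℤ) : ZMod D) ≠ 0 := fun i => ne_zero_of (hk i) (ha i)
  refine ⟨fun f hf hval => small_zero hDeligne hWuestholz hFermat a k hk hk0 hf hval,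
    fun V hV hst => stable_zero hDeligne hWuestholz hFermat a k hk hk0 V hV hst,
    fun hall m hm => sum_of_excess (all_conjugates hDeligne hWuestholz hFermat a k hk hk0 hall hm),
    fun c hc halg m hm => ?_⟩
  by_cases hc0 : c = 0
  · have h1 := hc m hm
    rw [hc0, neg_zero, or_self, or_self] at h1
    linarith
  have h1 : c⁻¹ • excessFun D a 1 ∈ algebraicSpan D a :=
    Submodule.smul_mem _ _ (algebraicMultiple_one halg)
  have h2 := small_zero hDeligne hWuestholz hFermat a k hk hk0 h1 (fun t => by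
    rw [Pi.smul_apply, smul_eq_mul, excess_value]
    rcases hc t.1 t.2 with h3 | h3 | h3
    · left
      rw [h3, mul_zero]
    · right
      left
      rw [h3, inv_mul_cancel₀ hc0]
    · right
      right
      rw [h3, mul_neg, inv_mul_cancel₀ hc0])
  have h3 : excessFun D a 1 ⟨m, hm⟩ = 0 := by
    have h4 := congrFun h2 ⟨m, hm⟩
    rw [Pi.smul_apply, smul_eq_mul, Pi.zero_apply] at h4
    rcases mul_eq_zero.1 h4 with h5 | h5
    · exact absurd (inv_eq_zero.1 h5) hc0
    · exact h5
  rw [excess_value] at h3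
  linarith

end Pool.Agent.Results.MP_c2409d_nt.ConjugateProducts
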