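import Pool.Agent.TH814.GN.Prod

/-!
# Rational multiples of powers of `π` among products of Gamma values

For fixed positive `a_j` and `c_j ≥ 1` the products `Γ(a_1 + c_1 / n) ⋯ Γ(a_r + c_r / n)` are rational multiples of
`π ^ s`, with a denominator of at most `n ^ A`, only for extremely few `n`.

Proof. The function `f(t) = π ^ (-s) Γ(a_1 + c_1 t) ⋯ Γ(a_r + c_r t)` is analytic at `0`, the limit of the points `1 / n`,
and transcendental by its growth. Determinants of Bombieri-Pila type formed with the points `1 / n`, `n` in `[N, N ^ κ]`,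
vanish for large `N`.
-/

set_option autoImplicit false

namespace Pool.Agent.Results.MP_c2409d_nt.RationalMultiples

/-- The positive integers `n` such that `Γ(a_1 + c_1 / n) ⋯ Γ(a_r + c_r / n) = (u / v) π ^ s` with integers `u`, `v`,
`1 ≤ v ≤ n ^ A`. -/
def Bad {r : ℕ} (a c : Fin r → ℝ) (s A : ℝ) : Set ℕ :=
  {n | 1 ≤ n ∧ ∃ (u : ℤ) (v : ℕ), 1 ≤ v ∧ (v : ℝ) ≤ (n : ℝ) ^ A ∧
    ∏ j, Real.Gamma (a j + c j / n) = u / v * Real.pi ^ s}

/-- Let `r ≥ 1`, let `a_j > 0`, `c_j ≥ 1`, `s` and `A ≥ 0` be real numbers. For every `κ ≥ 1` there is `Z` such that for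
every `N ≥ 1` at most `Z` integers `n` with `N ≤ n ≤ N ^ κ` are in `Bad a c s A`. In particular there is `Z` such that for
every `J` at most `2 + Z J` integers `n ≤ 2 ^ (2 ^ J)` are in `Bad a c s A`. -/
theorem result {r : ℕ} (hr : 0 < r) (a c : Fin r → ℝ) (ha : ∀ j, 0 < a j) (hc : ∀ j, 1 ≤ c j)
    (s A : ℝ) (hA : 0 ≤ A) :
    (∀ κ : ℝ, 1 ≤ κ → ∃ Z : ℕ, ∀ N : ℕ, 1 ≤ N →
      {n : ℕ | n ∈ Bad a c s A ∧ N ≤ n ∧ (n : ℝ) ≤ (N : ℝ) ^ κ}.encard ≤ Z) ∧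
    ∃ Z : ℕ, ∀ J : ℕ, {n : ℕ | n ∈ Bad a c s A ∧ n ≤ 2 ^ (2 ^ J)}.encard ≤ 2 + Z * J := by
  have hpi : 0 < Real.pi ^ s := Real.rpow_pos_of_pos Real.pi_pos s
  have h1 : ∀ κ : ℝ, 1 ≤ κ → ∃ Z : ℕ, ∀ N : ℕ, 1 ≤ N →
      {n : ℕ | n ∈ Bad a c s A ∧ N ≤ n ∧ (n : ℝ) ≤ (N : ℝ) ^ κ}.encard ≤ Z := by
    intro κ hκ
    obtain ⟨Z, hZ⟩ := Pool.Agent.TH814.GN.gap (Pool.Agent.TH814.GN.PG (Real.pi ^ s)⁻¹ a c)
      (fun t ht => Pool.Agent.TH814.GN.PG_an _ a c ha hc t ht.1)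
      (Pool.Agent.TH814.GN.PG_ind hr _ (inv_pos.2 hpi) a c ha hc) A κ hA hκ
    refine ⟨Z, fun N hN => ?_⟩
    by_contra hcon
    push Not at hcon
    obtain ⟨F, hF, hFc⟩ := Set.exists_subset_encard_eq (Order.add_one_le_of_lt hcon)
    have hFfin : F.Finite := by
      rw [← Set.encard_lt_top_iff, hFc]
      exact_mod_cast ENat.natCast_lt_top (Z + 1)
    have h2 := hZ N hN hFfin.toFinset (by
      intro n hn
      rw [Set.Finite.mem_toFinset] at hn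
      obtain ⟨⟨hn1, u, v, hv1, hv2, huv⟩, hN1, hN2⟩ := hF hn
      refine ⟨hN1, hN2, u, v, hv1, hv2, ?_⟩
      unfold Pool.Agent.TH814.GN.PG
      have e : ∏ j, Real.Gamma (a j + c j * (1 / (n : ℝ))) = ∏ j, Real.Gamma (a j + c j / n) := by
        refine Finset.prod_congr rfl fun j _ => ?_
        rw [mul_one_div]
      rw [e, huv]
      field_simp)
    have h3 : F.encard = hFfin.toFinset.card := by
      rw [hFfin.encard_eq_coe_toFinset_card]
    rw [h3] at hFc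
    have h4 : hFfin.toFinset.card = Z + 1 := by exact_mod_cast hFc
    omega
  refine ⟨h1, ?_⟩
  obtain ⟨Z, hZ⟩ := h1 2 (by norm_num)
  refine ⟨Z, fun J => ?_⟩
  induction J with
  | zero =>
    have hsub : {n : ℕ | n ∈ Bad a c s A ∧ n ≤ 2 ^ (2 ^ 0)} ⊆ ({1, 2} : Set ℕ) := by
      rintro n ⟨⟨hn1, -⟩, hn2⟩
      simp only [pow_zero, pow_one] at hn2
      simp only [Set.mem_insert_iff, Set.mem_singleton_iff]
      omega
    refine (Set.encard_le_encard hsub).trans ?_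
    refine (Set.encard_insert_le _ _).trans ?_
    rw [Set.encard_singleton]
    norm_num
  | succ J ih =>
    have hsub : {n : ℕ | n ∈ Bad a c s A ∧ n ≤ 2 ^ (2 ^ (J + 1))} ⊆
        {n : ℕ | n ∈ Bad a c s A ∧ n ≤ 2 ^ (2 ^ J)} ∪
          {n : ℕ | n ∈ Bad a c s A ∧ 2 ^ (2 ^ J) ≤ n ∧ (n : ℝ) ≤ ((2 ^ (2 ^ J) : ℕ) : ℝ) ^ (2 : ℝ)} := by
      rintro n ⟨hb, hn⟩
      rcases le_total n (2 ^ (2 ^ J)) with h | h
      · exact Or.inl ⟨hb, h⟩
      · refine Or.inr ⟨hb, h, ?_⟩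
        rw [Real.rpow_two]
        have e : 2 ^ (2 ^ (J + 1)) = (2 ^ (2 ^ J)) ^ 2 := by
          rw [← pow_mul, ← pow_succ]
        rw [e] at hn
        exact_mod_cast hn
    refine (Set.encard_le_encard hsub).trans ((Set.encard_union_le _ _).trans ?_)
    refine (add_le_add ih (hZ _ Nat.one_le_two_pow)).trans ?_
    apply le_of_eq
    push_cast
    ring

end Pool.Agent.Results.MP_c2409d_nt.RationalMultiples
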